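import Pool.Agent.L7h4.FR.Five

set_option autoImplicit false

namespace Pool.Agent.L7h46.F5

open Matrix Pool.Agent.L7h4.F5

theorem flip_mul_apply {n : ℕ} (A : Mat n) (i j : Fin n) :
    (Pool.Agent.L7h4.F5.flip n * A) i j = A i.rev j := by
  unfold Pool.Agent.L7h4.F5.flip
  rw [Matrix.mul_apply]
  simp

theorem comp_det (m : ℕ) (c : Fin (m + 1) → ℂ) : (Comp (m + 1) c).det = (-1) ^ (m + 1) * c 0 := by
  rw [Matrix.det_succ_row_zero]
  rw [Finset.sum_eq_single (Fin.last m)]
  · have h1 : ((Comp (m + 1) c).submatrix Fin.succ (Fin.last m).succAbove) = 1 := by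
      ext i k
      simp only [Comp, Matrix.submatrix_apply, Matrix.of_apply, Fin.succAbove_last, Fin.val_castSucc,
        Fin.val_succ, Matrix.one_apply]
      have hk := k.2
      rw [if_neg (by omega : ¬ (k : ℕ) + 1 = m + 1), add_zero]
      by_cases h : i = k
      · subst h; simp
      · rw [if_neg h, if_neg]
        intro h'
        exact h (Fin.ext (by omega))
    have h2 : (Comp (m + 1) c) 0 (Fin.last m) = - c 0 := by
      simp [Comp]
    rw [h1, Matrix.det_one, mul_one, h2, Fin.val_last, pow_succ]
    ring
  · intro b _ hb
    have : (Comp (m + 1) c) 0 b = 0 := by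
      have hb' : (b : ℕ) ≠ m := fun h => hb (Fin.ext (by simpa using h))
      simp [Comp, hb']
    rw [this]
    ring
  · intro h
    exact absurd (Finset.mem_univ _) h

theorem s_CMP : S_CMP := by
  intro n hn c σ hσ
  refine ⟨?_, ?_⟩
  · obtain ⟨m, rfl⟩ : ∃ m, n = m + 1 := ⟨n - 1, by omega⟩
    exact comp_det m c
  · intro h0 hc
    have hM : ∀ i j : Fin n, (Pool.Agent.L7h4.F5.flip n * Comp n c) i j =
        (if (j : ℕ) + 1 = n - 1 - i then 1 else 0) + (if (j : ℕ) + 1 = n then - c i.rev else 0) := by
      intro i j
      rw [flip_mul_apply]
      simp only [Comp, Matrix.of_apply, Fin.val_rev]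
      congr 2
      simp only [eq_iff_iff]
      omega
    generalize Pool.Agent.L7h4.F5.flip n * Comp n c = M at hM
    have hsum : ∀ (i : Fin n) (X : Fin n → ℂ), ∑ k, M i k * X k =
        (if h : (i : ℕ) + 2 ≤ n then X ⟨n - 2 - i, by omega⟩ else 0) - c i.rev * X ⟨n - 1, by omega⟩ := by
      intro i X
      have h1 : ∀ k, M i k * X k = (if (k : ℕ) + 1 = n - 1 - i then X k else 0) +
          (if (k : ℕ) + 1 = n then - c i.rev * X k else 0) := by
        intro k
        rw [hM]
        split_ifs <;> ring
      simp_rw [h1]
      rw [Finset.sum_add_distrib, sub_eq_add_neg]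
      congr 1
      · split_ifs with h
        · rw [Finset.sum_eq_single (⟨n - 2 - i, by omega⟩ : Fin n)]
          · rw [if_pos]
            simp only
            omega
          · intro b _ hb
            rw [if_neg]
            intro h'
            exact hb (Fin.ext (by simp only; omega))
          · intro h'
            exact absurd (Finset.mem_univ _) h'
        · apply Finset.sum_eq_zero
          intro k _
          rw [if_neg]
          omega
      · rw [Finset.sum_eq_single (⟨n - 1, by omega⟩ : Fin n)]
        · rw [if_pos (by simp only; omega)]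
          ring
        · intro b _ hb
          rw [if_neg]
          intro h'
          exact hb (Fin.ext (by simp only; omega))
        · intro h'
          exact absurd (Finset.mem_univ _) h'
    ext i j
    rw [Matrix.mul_apply, hsum]
    have hl : M ⟨n - 1, by omega⟩ j = if (j : ℕ) + 1 = n then - σ else 0 := by
      rw [hM]
      simp only
      rw [if_neg (by omega), zero_add]
      have : (⟨n - 1, by omega⟩ : Fin n).rev = ⟨0, by omega⟩ := by
        ext
        simp
        omega
      rw [this, h0]
    rw [hl]
    by_cases hi : (i : ℕ) + 2 ≤ n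
    · rw [dif_pos hi, hM]
      have hr1 : (⟨n - 2 - i, by omega⟩ : Fin n).rev = ⟨i + 1, by omega⟩ := by
        ext
        simp
        omega
      rw [hr1]
      have hcc := hc ⟨i + 1, by omega⟩ i.rev (by simp)
      simp only
      rw [Matrix.one_apply]
      by_cases hj : (j : ℕ) + 1 = n
      · rw [if_pos hj, if_pos hj, if_neg (by omega), if_neg, hcc]
        · ring_nf
        · intro h
          subst h
          omega
      · rw [if_neg hj, if_neg hj]
        by_cases hij : i = j
        · subst hij
          rw [if_pos (by omega), if_pos rfl]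
          ring
        · rw [if_neg, if_neg hij]
          · ring
          · intro h
            exact hij (Fin.ext (by omega))
    · rw [dif_neg hi]
      have hr : i.rev = ⟨0, by omega⟩ := by
        ext
        simp
        omega
      rw [hr, h0, Matrix.one_apply]
      by_cases hj : (j : ℕ) + 1 = n
      · rw [if_pos hj, if_pos (Fin.ext (by omega))]
        linear_combination hσ
      · rw [if_neg hj, if_neg]
        · ring
        · intro h
          subst h
          omega

end Pool.Agent.L7h46.F5
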