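import Pool.Agent.L7h4.FR.Five

set_option autoImplicit false

namespace Pool.Agent.L7h46.F5

open Matrix Pool.Agent.L7h4.F5

/-- the diagonal matrix `diag(-1, 1, ..., 1, -1)` -/
noncomputable def DD (n : ℕ) : Mat n :=
  Matrix.diagonal fun i => if (i : ℕ) = 0 ∨ (i : ℕ) + 1 = n then -1 else 1

theorem dd_sq (n : ℕ) : DD n * DD n = 1 := by
  unfold DD
  rw [Matrix.diagonal_mul_diagonal, ← Matrix.diagonal_one]
  congr 1
  funext i
  split_ifs <;> norm_num

theorem dd_flip (n : ℕ) : DD n * Pool.Agent.L7h4.F5.flip n = Pool.Agent.L7h4.F5.flip n * DD n := by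
  ext i j
  unfold DD Pool.Agent.L7h4.F5.flip
  rw [Matrix.diagonal_mul, Matrix.mul_diagonal]
  simp only [Matrix.of_apply]
  by_cases h : j = i.rev
  · subst h
    have hi := i.2
    have : (((i : ℕ) = 0 ∨ (i : ℕ) + 1 = n) ↔ (((i.rev : Fin n) : ℕ) = 0 ∨ ((i.rev : Fin n) : ℕ) + 1 = n)) := by
      rw [Fin.val_rev]
      omega
    simp only [this, if_true, mul_one, one_mul]
  · rw [if_neg h]
    ring

/-- pure algebra: the five involutions -/
theorem alg {R : Type} [Ring R] (J D N F l : R) (hJ : J * J = 1) (hD : D * D = 1) (hF : F * F = 1)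
    (hJN : J * N = N) (hNJ : N * J = -N) (hDN : D * N = N) (hND : N * D = -N) (hNN : N * N = 0)
    (hDF : D * F = F * D) (hl : l * l = 1) (hlc : ∀ x, l * x = x * l) :
    (J * (1 + N)) * (J * (1 + N)) = 1 ∧ (D * (1 + N)) * (D * (1 + N)) = 1 ∧
    (l * (D * F)) * (l * (D * F)) = 1 ∧ J * (J * (1 + N)) = 1 + N ∧
    J * (J * (1 + N) * (D * (1 + N) * (F * (l * (D * F)))) ) = l := by
  have h1 : J * (1 + N) = J + N := by rw [mul_add, mul_one, hJN]
  have h2 : D * (1 + N) = D + N := by rw [mul_add, mul_one, hDN]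
  have h3 : F * (l * (D * F)) = l * D := by
    calc F * (l * (D * F)) = (F * l) * (D * F) := by rw [mul_assoc]
      _ = (l * F) * (F * D) := by rw [← hlc F, hDF]
      _ = l * (F * F) * D := by simp only [mul_assoc]
      _ = l * D := by rw [hF, mul_one]
  refine ⟨?_, ?_, ?_, ?_, ?_⟩
  · rw [h1, add_mul, mul_add, mul_add, hJ, hJN, hNJ, hNN]
    abel
  · rw [h2, add_mul, mul_add, mul_add, hD, hDN, hND, hNN]
    abel
  · calc (l * (D * F)) * (l * (D * F)) = l * (D * (F * (l * (D * F)))) := by simp only [mul_assoc]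
      _ = l * (D * (l * D)) := by rw [h3]
      _ = l * (D * (D * l)) := by rw [hlc D]
      _ = l * l := by rw [← mul_assoc D, hD, one_mul]
      _ = 1 := hl
  · rw [← mul_assoc, hJ, one_mul]
  · rw [h3]
    calc J * (J * (1 + N) * (D * (1 + N) * (l * D))) = (J * J) * (1 + N) * (D * (1 + N) * (l * D)) := by
          simp only [mul_assoc]
      _ = (1 + N) * ((D + N) * (l * D)) := by rw [hJ, one_mul, h2]
      _ = ((1 + N) * (D + N)) * (l * D) := by rw [mul_assoc]
      _ = D * (l * D) := by
          congr 1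
          rw [add_mul, one_mul, mul_add, hND, hNN]
          abel
      _ = D * (D * l) := by rw [hlc D]
      _ = l := by rw [← mul_assoc, hD, one_mul]

theorem s_IDN (hO : S_ORBH) (hC : S_CYC) : S_IDN := by
  intro n hn l hl
  obtain ⟨c1, c2, c3, c4, c5, -, c7, c8, c9, -, -⟩ := hC n (by omega) (-1) (by norm_num)
  set e : Fin n → ℂ := Pi.single (last n (by omega)) 1 with he
  set w : Fin n → ℂ := fun i => (if (i : ℕ) = 1 then 1 else 0) + (if (i : ℕ) + 3 = n then 1 else 0) with hw
  have hwl : w (last n (by omega)) = 0 := by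
    simp only [hw, last]
    rw [if_neg (by omega), if_neg (by omega), add_zero]
  have hJw : JJ n (-1) *ᵥ w = w := by
    funext i
    by_cases hi : (i : ℕ) + 2 ≤ n
    · rw [c9 w i hi]
      simp only [hw]
      by_cases h1 : (i : ℕ) = 1
      · rw [if_pos h1, if_pos (by omega : n - 2 - (i : ℕ) + 3 = n)]
        by_cases h2 : (i : ℕ) + 3 = n
        · rw [if_pos h2, if_pos (by omega)]
        · rw [if_neg h2, if_neg (by omega)]
          ring
      · rw [if_neg h1, if_neg (by omega : ¬ n - 2 - (i : ℕ) + 3 = n)]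
        by_cases h2 : (i : ℕ) + 3 = n
        · rw [if_pos h2, if_pos (by omega)]
          ring
        · rw [if_neg h2, if_neg (by omega)]
    · have hil : i = last n (by omega) := by
        apply Fin.ext
        simp only [last]
        omega
      rw [hil]
      rw [hwl]
      have h1 : (JJ n (-1) *ᵥ w) (last n (by omega)) = e ⬝ᵥ (JJ n (-1) *ᵥ w) := by
        rw [he, single_dotProduct, one_mul]
      rw [h1, Matrix.dotProduct_mulVec, c8, smul_dotProduct, he, single_dotProduct, hwl]
      simp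
  have hDw : DD n *ᵥ w = w := by
    funext i
    unfold DD
    rw [Matrix.mulVec_diagonal]
    by_cases h : (i : ℕ) = 0 ∨ (i : ℕ) + 1 = n
    · have : w i = 0 := by
        simp only [hw]
        rw [if_neg (by omega), if_neg (by omega), add_zero]
      rw [this, mul_zero]
    · rw [if_neg h, one_mul]
  have heD : e ᵥ* DD n = -e := by
    funext i
    unfold DD
    rw [Matrix.vecMul_diagonal, Pi.neg_apply]
    by_cases h : i = last n (by omega)
    · subst h
      rw [if_pos (by right; simp only [last]; omega)]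
      ring
    · rw [he, Pi.single_eq_of_ne h]
      ring
  set N : Mat n := vecMulVec w e with hN
  have hJN : JJ n (-1) * N = N := by rw [hN, Matrix.mul_vecMulVec, hJw]
  have hNJ : N * JJ n (-1) = -N := by
    rw [hN, Matrix.vecMulVec_mul, c8, neg_smul, one_smul, Matrix.vecMulVec_neg]
  have hDN : DD n * N = N := by rw [hN, Matrix.mul_vecMulVec, hDw]
  have hND : N * DD n = -N := by rw [hN, Matrix.vecMulVec_mul, heD, Matrix.vecMulVec_neg]
  have hNN : N * N = 0 := by
    rw [hN, Matrix.vecMulVec_mul_vecMulVec]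
    have : e ⬝ᵥ w = 0 := by rw [he, single_dotProduct, hwl, mul_zero]
    rw [this]
    simp
  have hls : (l • (1 : Mat n)) * (l • (1 : Mat n)) = 1 := by
    rw [smul_mul_smul_comm, hl, one_mul, one_smul]
  obtain ⟨a1, a2, a3, a4, a5⟩ := alg (JJ n (-1)) (DD n) N (Pool.Agent.L7h4.F5.flip n) (l • (1 : Mat n)) c2 (dd_sq n) c1
    hJN hNJ hDN hND hNN (dd_flip n) hls (fun x => by rw [smul_mul_assoc, one_mul, mul_smul_comm, mul_one])
  refine ⟨![JJ n (-1), JJ n (-1) * (1 + N), DD n * (1 + N), Pool.Agent.L7h4.F5.flip n,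
    (l • (1 : Mat n)) * (DD n * Pool.Agent.L7h4.F5.flip n)], ?_, ?_, ?_⟩
  · intro i
    fin_cases i
    · exact c2
    · exact a1
    · exact a2
    · exact c1
    · exact a3
  · simp only [List.ofFn_succ, List.ofFn_zero, List.prod_cons, List.prod_nil, mul_one]
    simpa [mul_assoc] using a5
  · have hmem : ∀ i, (![JJ n (-1), JJ n (-1) * (1 + N), DD n * (1 + N), Pool.Agent.L7h4.F5.flip n,
        (l • (1 : Mat n)) * (DD n * Pool.Agent.L7h4.F5.flip n)] : Fin 5 → Mat n) i ∈ Submonoid.closure (Set.range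
        (![JJ n (-1), JJ n (-1) * (1 + N), DD n * (1 + N), Pool.Agent.L7h4.F5.flip n,
        (l • (1 : Mat n)) * (DD n * Pool.Agent.L7h4.F5.flip n)] : Fin 5 → Mat n)) :=
      fun i => Submonoid.subset_closure ⟨i, rfl⟩
    have m0 := hmem 0
    have m1 := hmem 1
    have m3 := hmem 3
    refine hO n (by omega) _ w (cyc n (-1)) (JJ n (-1) * Pool.Agent.L7h4.F5.flip n) ?_ hwl ?_ ?_ ?_ c4 c5 c7
    · intro h
      have := congrFun h ⟨1, by omega⟩
      simp only [hw, Pi.zero_apply, if_true] at this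
      split_ifs at this <;> norm_num at this
    · have := Submonoid.mul_mem _ m0 m1
      simp only [Matrix.cons_val_zero, Matrix.cons_val_one] at this
      rw [a4] at this
      exact this
    · have := Submonoid.mul_mem _ m3 m0
      rw [← c3]
      exact this
    · exact Submonoid.mul_mem _ m0 m3

end Pool.Agent.L7h46.F5
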